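import Pool.Agent.R169.Oct

set_option autoImplicit false

/-!
# The octahedral pieces of the fcc lattice do not maximise the number of touching quadruples

For every `k ≥ 3` there is a packing of `n_k = (2k³ + k)/3` unit balls with more than
`q_k = (4/3)(k - 2)(k - 1)k` touching quadruples. So the answer to Q2 is negative.

The packing: take the octahedral piece of the face-centred cubic lattice with `n_k` balls, remove
one of its six corner balls (it is in no touching quadruple), and put one ball on one of its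
triangular faces (this creates a touching quadruple).
-/

namespace Pool.Agent.Results.MP_b59a08_co.Quadruples

open Pool.Agent.R169.Oct

/-- the new configuration -/
noncomputable def S' (m : ℕ) : Finset Z3 := insert (1, 1, (m : ℤ)) ((S m).erase ((m : ℤ), 0, 0))

theorem mem_S' {m : ℕ} {p : Z3} : p ∈ S' m ↔
    p = (1, 1, (m : ℤ)) ∨ (p ≠ ((m : ℤ), 0, 0) ∧
      (p.1.natAbs + p.2.1.natAbs + p.2.2.natAbs ≤ m ∧ (p.1 + p.2.1 + p.2.2 - m) % 2 = 0)) := by
  unfold S'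
  rw [Finset.mem_insert, Finset.mem_erase, mem_S]

theorem card_S' (m : ℕ) : (S' m).card = (S m).card := by
  unfold S'
  have h1 : ((m : ℤ), (0 : ℤ), (0 : ℤ)) ∈ S m := by rw [mem_S]; simp
  have h2 : ((1 : ℤ), (1 : ℤ), (m : ℤ)) ∉ (S m).erase ((m : ℤ), 0, 0) := by
    rw [Finset.mem_erase, mem_S]
    simp only
    omega
  rw [Finset.card_insert_of_notMem h2, Finset.card_erase_of_mem h1]
  have : 0 < (S m).card := Finset.card_pos.2 ⟨_, h1⟩
  omega

/-- the parity bit of a cube -/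
def eps (m : ℕ) (c : ℕ × ℕ × ℕ) : ℤ := ((m : ℤ) - c.1 - c.2.1 - c.2.2) % 2

theorem eps_cases (m : ℕ) (c : ℕ × ℕ × ℕ) : eps m c = 0 ∨ eps m c = 1 := by
  unfold eps; omega

/-- the tetrahedron inscribed in the unit cube with the corner `s c` in the octant of `s` -/
def tet (m : ℕ) (a : (ℕ × ℕ × ℕ) × Z3) : Finset Z3 :=
  {(a.2.1 * (a.1.1 + eps m a.1), a.2.2.1 * (a.1.2.1 + eps m a.1), a.2.2.2 * (a.1.2.2 + eps m a.1)),
   (a.2.1 * (a.1.1 + (1 - eps m a.1)), a.2.2.1 * (a.1.2.1 + (1 - eps m a.1)),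
      a.2.2.2 * (a.1.2.2 + eps m a.1)),
   (a.2.1 * (a.1.1 + (1 - eps m a.1)), a.2.2.1 * (a.1.2.1 + eps m a.1),
      a.2.2.2 * (a.1.2.2 + (1 - eps m a.1))),
   (a.2.1 * (a.1.1 + eps m a.1), a.2.2.1 * (a.1.2.1 + (1 - eps m a.1)),
      a.2.2.2 * (a.1.2.2 + (1 - eps m a.1)))}

theorem mem_tet {m : ℕ} {a : (ℕ × ℕ × ℕ) × Z3} {p : Z3} : p ∈ tet m a ↔
   p = (a.2.1 * (a.1.1 + eps m a.1), a.2.2.1 * (a.1.2.1 + eps m a.1), a.2.2.2 * (a.1.2.2 + eps m a.1)) ∨
   p = (a.2.1 * (a.1.1 + (1 - eps m a.1)), a.2.2.1 * (a.1.2.1 + (1 - eps m a.1)),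
      a.2.2.2 * (a.1.2.2 + eps m a.1)) ∨
   p = (a.2.1 * (a.1.1 + (1 - eps m a.1)), a.2.2.1 * (a.1.2.1 + eps m a.1),
      a.2.2.2 * (a.1.2.2 + (1 - eps m a.1))) ∨
   p = (a.2.1 * (a.1.1 + eps m a.1), a.2.2.1 * (a.1.2.1 + (1 - eps m a.1)),
      a.2.2.2 * (a.1.2.2 + (1 - eps m a.1))) := by
  simp [tet]

theorem tet_ne {m : ℕ} {a : (ℕ × ℕ × ℕ) × Z3} (ha : a.2 ∈ signs) :
   (a.2.1 * (a.1.1 + eps m a.1), a.2.2.1 * (a.1.2.1 + eps m a.1), a.2.2.2 * (a.1.2.2 + eps m a.1)) ∉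
   ({(a.2.1 * (a.1.1 + (1 - eps m a.1)), a.2.2.1 * (a.1.2.1 + (1 - eps m a.1)),
      a.2.2.2 * (a.1.2.2 + eps m a.1)),
   (a.2.1 * (a.1.1 + (1 - eps m a.1)), a.2.2.1 * (a.1.2.1 + eps m a.1),
      a.2.2.2 * (a.1.2.2 + (1 - eps m a.1))),
   (a.2.1 * (a.1.1 + eps m a.1), a.2.2.1 * (a.1.2.1 + (1 - eps m a.1)),
      a.2.2.2 * (a.1.2.2 + (1 - eps m a.1)))} : Finset Z3) ∧
   (a.2.1 * (a.1.1 + (1 - eps m a.1)), a.2.2.1 * (a.1.2.1 + (1 - eps m a.1)),
      a.2.2.2 * (a.1.2.2 + eps m a.1)) ∉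
   ({(a.2.1 * (a.1.1 + (1 - eps m a.1)), a.2.2.1 * (a.1.2.1 + eps m a.1),
      a.2.2.2 * (a.1.2.2 + (1 - eps m a.1))),
   (a.2.1 * (a.1.1 + eps m a.1), a.2.2.1 * (a.1.2.1 + (1 - eps m a.1)),
      a.2.2.2 * (a.1.2.2 + (1 - eps m a.1)))} : Finset Z3) ∧
   (a.2.1 * (a.1.1 + (1 - eps m a.1)), a.2.2.1 * (a.1.2.1 + eps m a.1),
      a.2.2.2 * (a.1.2.2 + (1 - eps m a.1))) ∉
   ({(a.2.1 * (a.1.1 + eps m a.1), a.2.2.1 * (a.1.2.1 + (1 - eps m a.1)),
      a.2.2.2 * (a.1.2.2 + (1 - eps m a.1)))} : Finset Z3) := by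
  obtain ⟨c, ⟨s1, s2, s3⟩⟩ := a
  rw [mem_signs] at ha
  simp only at ha ⊢
  obtain ⟨h1, h2, h3⟩ := ha
  simp only [Finset.mem_insert, Finset.mem_singleton, Prod.mk.injEq]
  rcases eps_cases m c with h | h <;> rw [h] <;>
    rcases h1 with rfl | rfl <;> rcases h2 with rfl | rfl <;> rcases h3 with rfl | rfl <;> omega

theorem tet_sum {m : ℕ} {a : (ℕ × ℕ × ℕ) × Z3} (ha : a.2 ∈ signs) : ∑ p ∈ tet m a, p =
    (a.2.1 * (4 * a.1.1 + 2), a.2.2.1 * (4 * a.1.2.1 + 2), a.2.2.2 * (4 * a.1.2.2 + 2)) := by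
  obtain ⟨h1, h2, h3⟩ := tet_ne (m := m) ha
  unfold tet
  rw [Finset.sum_insert h1, Finset.sum_insert h2, Finset.sum_insert h3, Finset.sum_singleton]
  simp only [Prod.mk_add_mk]
  refine Prod.ext ?_ (Prod.ext ?_ ?_) <;> simp only <;> ring

theorem tet_card {m : ℕ} {a : (ℕ × ℕ × ℕ) × Z3} (ha : a.2 ∈ signs) : (tet m a).card = 4 := by
  obtain ⟨h1, h2, h3⟩ := tet_ne (m := m) ha
  unfold tet
  rw [Finset.card_insert_of_notMem h1, Finset.card_insert_of_notMem h2,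
    Finset.card_insert_of_notMem h3, Finset.card_singleton]

theorem tet_injOn {m : ℕ} {a b : (ℕ × ℕ × ℕ) × Z3} (ha : a.2 ∈ signs) (hb : b.2 ∈ signs)
    (h : tet m a = tet m b) : a = b := by
  have h1 := tet_sum (m := m) ha
  rw [h, tet_sum hb] at h1
  obtain ⟨⟨c1, c2, c3⟩, ⟨s1, s2, s3⟩⟩ := a
  obtain ⟨⟨d1, d2, d3⟩, ⟨t1, t2, t3⟩⟩ := b
  rw [mem_signs] at ha hb
  simp only [Prod.mk.injEq] at h1 ha hb ⊢
  obtain ⟨e1, e2, e3⟩ := h1
  obtain ⟨a1, a2, a3⟩ := ha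
  obtain ⟨b1, b2, b3⟩ := hb
  refine ⟨⟨?_, ?_, ?_⟩, ?_, ?_, ?_⟩
  · rcases a1 with rfl | rfl <;> rcases b1 with rfl | rfl <;> omega
  · rcases a2 with rfl | rfl <;> rcases b2 with rfl | rfl <;> omega
  · rcases a3 with rfl | rfl <;> rcases b3 with rfl | rfl <;> omega
  · rcases a1 with rfl | rfl <;> rcases b1 with rfl | rfl <;> omega
  · rcases a2 with rfl | rfl <;> rcases b2 with rfl | rfl <;> omega
  · rcases a3 with rfl | rfl <;> rcases b3 with rfl | rfl <;> omega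

theorem tet_touch {m : ℕ} {a : (ℕ × ℕ × ℕ) × Z3} (ha : a.2 ∈ signs) :
    ∀ x ∈ tet m a, ∀ y ∈ tet m a, x ≠ y → R169.Oct.sq x y = 2 := by
  obtain ⟨⟨c1, c2, c3⟩, ⟨s1, s2, s3⟩⟩ := a
  rw [mem_signs] at ha
  simp only at ha
  obtain ⟨h1, h2, h3⟩ := ha
  have e1 : s1 ^ 2 = 1 := by rcases h1 with rfl | rfl <;> norm_num
  have e2 : s2 ^ 2 = 1 := by rcases h2 with rfl | rfl <;> norm_num
  have e3 : s3 ^ 2 = 1 := by rcases h3 with rfl | rfl <;> norm_num
  have e4 : (1 - 2 * eps m (c1, c2, c3)) ^ 2 = 1 := by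
    rcases eps_cases m (c1, c2, c3) with h | h <;> rw [h] <;> norm_num
  intro x hx y hy hxy
  rw [mem_tet] at hx hy
  simp only at hx hy
  generalize eps m (c1, c2, c3) = e at *
  have k1 : s1 ^ 2 * (1 - 2 * e) ^ 2 = 1 := by rw [e1, e4]; norm_num
  have k2 : s2 ^ 2 * (1 - 2 * e) ^ 2 = 1 := by rw [e2, e4]; norm_num
  have k3 : s3 ^ 2 * (1 - 2 * e) ^ 2 = 1 := by rw [e3, e4]; norm_num
  rcases hx with rfl | rfl | rfl | rfl <;> rcases hy with rfl | rfl | rfl | rfl <;>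
    first
      | exact absurd rfl hxy
      | (simp only [R169.Oct.sq]; linear_combination k1 + k2)
      | (simp only [R169.Oct.sq]; linear_combination k1 + k3)
      | (simp only [R169.Oct.sq]; linear_combination k2 + k3)

/-- index set -/
def J (m : ℕ) : Finset (Σ _ : (Σ _ : ℕ, ℕ), ℕ) :=
  ((Finset.range (m - 1)).sigma fun l => Finset.range (l + 1)).sigma fun a => Finset.range (a.2 + 1)

/-- the corner of the cube -/
def corner (a : Σ _ : (Σ _ : ℕ, ℕ), ℕ) : ℕ × ℕ × ℕ := (a.2, a.1.2 - a.2, a.1.1 - a.1.2)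

theorem card_J (m : ℕ) : 6 * (J m).card = (m - 1) * m * (m + 1) := by
  unfold J
  rw [Finset.card_sigma, Finset.sum_sigma]
  simp only [Finset.card_range]
  have h1 : ∀ l : ℕ, 2 * ∑ j ∈ Finset.range (l + 1), (j + 1) = (l + 1) * (l + 2) := by
    intro l
    induction l with
    | zero => simp
    | succ l ih => rw [Finset.sum_range_succ, mul_add, ih]; ring
  have h2 : ∀ n : ℕ, 6 * ∑ l ∈ Finset.range n, ∑ j ∈ Finset.range (l + 1), (j + 1) =
      n * (n + 1) * (n + 2) := by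
    intro n
    induction n with
    | zero => simp
    | succ n ih =>
      rw [Finset.sum_range_succ, mul_add, ih]
      have := h1 n
      nlinarith
  rw [h2]
  rcases m with _ | m
  · simp
  · simp only [Nat.add_sub_cancel]

/-- the index set of the tetrahedra -/
def F (m : ℕ) : Finset ((ℕ × ℕ × ℕ) × Z3) :=
  insert ((0, 0, m - 1), (1, 1, 1)) (((J m).image corner) ×ˢ signs)

theorem mem_image_corner {m : ℕ} {c : ℕ × ℕ × ℕ} (h : c ∈ (J m).image corner) :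
    c.1 + c.2.1 + c.2.2 + 2 ≤ m := by
  rw [Finset.mem_image] at h
  obtain ⟨⟨⟨l, j⟩, i⟩, h1, rfl⟩ := h
  unfold J at h1
  simp only [Finset.mem_sigma, Finset.mem_range] at h1
  simp only [corner]
  omega

theorem card_F (m : ℕ) (hm : 2 ≤ m) : 6 * (F m).card = 8 * ((m - 1) * m * (m + 1)) + 6 := by
  unfold F
  rw [Finset.card_insert_of_notMem, Finset.card_product, card_signs,
    Finset.card_image_of_injOn]
  · have := card_J m
    rw [← this]
    ring
  · rintro ⟨⟨l, j⟩, i⟩ ha ⟨⟨l', j'⟩, i'⟩ hb hab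
    simp only [J, Finset.coe_sigma, Finset.coe_range, Set.mem_sigma_iff, Set.mem_Iio] at ha hb
    simp only [corner, Prod.mk.injEq] at hab
    have e1 : i = i' := by omega
    have e2 : j = j' := by omega
    have e3 : l = l' := by omega
    subst e1 e2 e3
    rfl
  · intro h
    rw [Finset.mem_product] at h
    have := mem_image_corner h.1
    simp only at this
    omega

theorem F_sub {m : ℕ} (hm : 2 ≤ m) {a : (ℕ × ℕ × ℕ) × Z3} (ha : a ∈ F m) :
    a.2 ∈ signs ∧ tet m a ⊆ S' m := by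
  unfold F at ha
  rw [Finset.mem_insert, Finset.mem_product] at ha
  rcases ha with rfl | ⟨h1, h2⟩
  · refine ⟨by simp [mem_signs], ?_⟩
    intro p hp
    rw [mem_tet] at hp
    rw [mem_S']
    have he : eps m (0, 0, m - 1) = 1 := by unfold eps; simp only; omega
    simp only [he] at hp
    rcases hp with rfl | rfl | rfl | rfl
    · left
      refine Prod.ext ?_ (Prod.ext ?_ ?_) <;> simp only <;> omega
    · right
      simp only [ne_eq, Prod.mk.injEq]
      omega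
    · right
      simp only [ne_eq, Prod.mk.injEq]
      omega
    · right
      simp only [ne_eq, Prod.mk.injEq]
      omega
  · refine ⟨h2, ?_⟩
    have h3 := mem_image_corner h1
    clear h1
    obtain ⟨⟨c1, c2, c3⟩, ⟨s1, s2, s3⟩⟩ := a
    rw [mem_signs] at h2
    simp only at h2 h3
    obtain ⟨k1, k2, k3⟩ := h2
    intro p hp
    rw [mem_tet] at hp
    rw [mem_S']
    right
    have he : eps m (c1, c2, c3) = ((m : ℤ) - c1 - c2 - c3) % 2 := rfl
    simp only at hp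
    generalize eps m (c1, c2, c3) = e at *
    rcases k1 with rfl | rfl <;> rcases k2 with rfl | rfl <;> rcases k3 with rfl | rfl <;>
      rcases hp with rfl | rfl | rfl | rfl <;> simp only [ne_eq, Prod.mk.injEq] <;> omega

theorem many (m : ℕ) (hm : 2 ≤ m) :
    8 * ((m - 1) * m * (m + 1)) + 6 ≤ 6 * numTouching 4 ((S' m).image Phi) := by
  have h := le_numTouching (F m) (tet m) 4 (S' m)
    (fun a ha b hb hab => tet_injOn (F_sub hm ha).1 (F_sub hm hb).1 hab)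
    (fun a ha => (F_sub hm ha).2) (fun a ha => tet_card (F_sub hm ha).1)
    (fun a ha => tet_touch (F_sub hm ha).1)
  have h1 := card_F m hm
  omega

theorem exists_packing (k : ℕ) (hk : 3 ≤ k) : ∃ P : Finset E3, IsPacking P ∧
    P.card = (2 * k ^ 3 + k) / 3 ∧
      (4 / 3 : ℝ) * (k - 2) * (k - 1) * k < numTouching 4 P := by
  obtain ⟨m, rfl⟩ : ∃ m, k = m + 1 := ⟨k - 1, by omega⟩
  have hm : 2 ≤ m := by omega
  refine ⟨(S' m).image Phi, ?_, ?_, ?_⟩
  · apply packing_of_parity _ m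
    intro p hp
    rw [mem_S'] at hp
    rcases hp with rfl | hp
    · simp only; omega
    · exact hp.2.2
  · rw [Finset.card_image_of_injective _ Phi_injective, card_S' m]
    have h := card_S m
    have h2 : 2 * (m + 1) ^ 3 + (m + 1) = 3 * (S m).card := by rw [h]; ring
    rw [h2]
    omega
  · have h := many m hm
    have h1 : (8 * (((m : ℝ) - 1) * m * (m + 1)) + 6) ≤
        6 * (numTouching 4 ((S' m).image Phi) : ℝ) := by
      have h2 : ((8 * ((m - 1) * m * (m + 1)) + 6 : ℕ) : ℝ) ≤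
        ((6 * numTouching 4 ((S' m).image Phi) : ℕ) : ℝ) := by exact_mod_cast h
      rw [Nat.cast_add, Nat.cast_mul, Nat.cast_mul, Nat.cast_mul, Nat.cast_sub (by omega)] at h2
      push_cast at h2
      linarith
    push_cast
    nlinarith

/-- For every `k ≥ 3` some packing of `n_k = (2k³ + k)/3` unit balls has more than
`q_k = (4/3)(k - 2)(k - 1)k` touching quadruples; in particular there is no `k₄` as in Q2. -/
theorem result :
    (∀ k : ℕ, 3 ≤ k → ∃ P : Finset E3, IsPacking P ∧ P.card = (2 * k ^ 3 + k) / 3 ∧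
      (4 / 3 : ℝ) * (k - 2) * (k - 1) * k < numTouching 4 P) ∧
    ¬ ∃ k₄ : ℕ, 0 < k₄ ∧ ∀ k : ℕ, k₄ ≤ k → ∀ P : Finset E3, IsPacking P →
      P.card = (2 * k ^ 3 + k) / 3 →
        (numTouching 4 P : ℝ) ≤ (4 / 3 : ℝ) * (k - 2) * (k - 1) * k := by
  refine ⟨exists_packing, ?_⟩
  rintro ⟨k₄, _, h⟩
  obtain ⟨P, h1, h2, h3⟩ := exists_packing (k₄ + 3) (by omega)
  have := h (k₄ + 3) (by omega) P h1 h2
  linarith

end Pool.Agent.Results.MP_b59a08_co.Quadruples
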