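import Pool.Agent.R169.Oct

set_option autoImplicit false

/-!
# The octahedral pieces of the fcc lattice do not maximise the number of touching triplets

For every `k ≥ 4` there is a packing of `n_k = (2k³ + k)/3` unit balls with more than
`t_k = (4/3)(k - 1)k(4k - 5)` touching triplets. So the answer to Q1 is negative.

The packing: take the octahedral piece of the face-centred cubic lattice with `n_k` balls, remove
three of its six corner balls (each is in only `4` touching triplets), and put three mutually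
touching balls on one of its triangular faces (this creates `13` touching triplets).
-/

namespace Pool.Agent.Results.MP_b59a08_co.Triplets

open Pool.Agent.R169.Oct

/-- the removed corners -/
def corners (m : ℕ) : Finset Z3 := {((m : ℤ), 0, 0), (-(m : ℤ), 0, 0), (0, (m : ℤ), 0)}

/-- the three added points -/
def patch (m : ℕ) : Finset Z3 :=
  {(2, 2, (m : ℤ) - 2), (2, 1, (m : ℤ) - 1), (1, 2, (m : ℤ) - 1)}

/-- the new configuration -/
noncomputable def S' (m : ℕ) : Finset Z3 := (S m \ corners m) ∪ patch m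

theorem mem_S' {m : ℕ} {p : Z3} : p ∈ S' m ↔
    ((p.1.natAbs + p.2.1.natAbs + p.2.2.natAbs ≤ m ∧ (p.1 + p.2.1 + p.2.2 - m) % 2 = 0) ∧
      ¬ (p = ((m : ℤ), 0, 0) ∨ p = (-(m : ℤ), 0, 0) ∨ p = (0, (m : ℤ), 0))) ∨
    (p = (2, 2, (m : ℤ) - 2) ∨ p = (2, 1, (m : ℤ) - 1) ∨ p = (1, 2, (m : ℤ) - 1)) := by
  unfold S' corners patch
  rw [Finset.mem_union, Finset.mem_sdiff, mem_S]
  simp only [Finset.mem_insert, Finset.mem_singleton]

theorem card_S' {m : ℕ} (hm : 3 ≤ m) : (S' m).card = (S m).card := by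
  unfold S'
  have h1 : (patch m).card = 3 := by
    unfold patch
    rw [Finset.card_insert_of_notMem, Finset.card_insert_of_notMem, Finset.card_singleton]
    · simp
    · simp
  have h2 : (corners m).card = 3 := by
    unfold corners
    rw [Finset.card_insert_of_notMem, Finset.card_insert_of_notMem, Finset.card_singleton]
    · simp only [Finset.mem_singleton, Prod.mk.injEq]; omega
    · simp only [Finset.mem_insert, Finset.mem_singleton, Prod.mk.injEq]; omega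
  have h3 : corners m ⊆ S m := by
    intro p hp
    unfold corners at hp
    simp only [Finset.mem_insert, Finset.mem_singleton] at hp
    rw [mem_S]
    rcases hp with rfl | rfl | rfl <;> simp only <;> omega
  have h4 : Disjoint (S m \ corners m) (patch m) := by
    rw [Finset.disjoint_left]
    intro p hp hp'
    rw [Finset.mem_sdiff, mem_S] at hp
    unfold patch at hp'
    simp only [Finset.mem_insert, Finset.mem_singleton] at hp'
    rcases hp' with rfl | rfl | rfl <;> simp only at hp <;> omega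
  have h5 : (corners m).card ≤ (S m).card := Finset.card_le_card h3
  rw [Finset.card_union_of_disjoint h4, Finset.card_sdiff_of_subset h3, h1, h2]
  omega

/-- the triangles destroyed by the removal of the corners -/
def bad (m : ℕ) : Finset (Z3 × Z3) :=
  ({((m : ℤ) - 1, 0, 0)} ×ˢ (({1} : Finset ℤ) ×ˢ ({1, -1} : Finset ℤ) ×ˢ ({1, -1} : Finset ℤ))) ∪
  (({(-((m : ℤ) - 1), 0, 0)} ×ˢ (({-1} : Finset ℤ) ×ˢ ({1, -1} : Finset ℤ) ×ˢ ({1, -1} : Finset ℤ))) ∪
  ({(0, (m : ℤ) - 1, 0)} ×ˢ (({1, -1} : Finset ℤ) ×ˢ ({1} : Finset ℤ) ×ˢ ({1, -1} : Finset ℤ))))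

theorem card_bad (m : ℕ) : (bad m).card ≤ 12 := by
  unfold bad
  refine (Finset.card_union_le _ _).trans ?_
  have h := Finset.card_union_le
    (({(-((m : ℤ) - 1), 0, 0)} : Finset Z3) ×ˢ (({-1} : Finset ℤ) ×ˢ ({1, -1} : Finset ℤ) ×ˢ ({1, -1} : Finset ℤ)))
    (({(0, (m : ℤ) - 1, 0)} : Finset Z3) ×ˢ (({1, -1} : Finset ℤ) ×ˢ ({1} : Finset ℤ) ×ˢ ({1, -1} : Finset ℤ)))
  have e1 : (({1, -1} : Finset ℤ)).card = 2 := by decide
  simp only [Finset.card_product, Finset.card_singleton, e1] at h ⊢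
  omega

/-- the first family: small `q` -/
noncomputable def A (m : ℕ) : Finset (Z3 × Z3) := (S (m - 1) ×ˢ signs) \ bad m

theorem card_A (m : ℕ) : 8 * (S (m - 1)).card ≤ (A m).card + 12 := by
  unfold A
  have h := Finset.le_card_sdiff (bad m) (S (m - 1) ×ˢ signs)
  have h2 := card_bad m
  rw [Finset.card_product, card_signs] at h
  omega

/-- the index set of the second family -/
def J (m : ℕ) : Finset ((Σ _ : ℕ, ℕ) × Z3) :=
  ((Finset.range m).sigma fun j => Finset.range j) ×ˢ signs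

/-- the map of the second family -/
def f (m : ℕ) (a : (Σ _ : ℕ, ℕ) × Z3) : Z3 × Z3 :=
  ((-a.2.1 * (a.1.2 + 1), -a.2.2.1 * (a.1.1 - a.1.2), -a.2.2.2 * (m - a.1.1)), a.2)

/-- the second family: `q` with all coordinates different from zero -/
def B (m : ℕ) : Finset (Z3 × Z3) := (J m).image (f m)

theorem card_B (m : ℕ) : 2 * (B m).card = 8 * (m * (m - 1)) := by
  unfold B
  rw [Finset.card_image_of_injOn]
  · unfold J
    rw [Finset.card_product, card_signs, Finset.card_sigma]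
    simp only [Finset.card_range]
    have := Finset.sum_range_id_mul_two m
    nlinarith
  · rintro ⟨⟨j, i⟩, s⟩ ha ⟨⟨j', i'⟩, s'⟩ hb hab
    simp only [J, Finset.coe_product, Set.mem_prod, Finset.mem_coe, mem_signs] at ha hb
    simp only [f, Prod.mk.injEq] at hab
    obtain ⟨⟨h1, h2, h3⟩, rfl⟩ := hab
    obtain ⟨_, s1, s2, s3⟩ := ha
    have h4 : (i : ℤ) = i' := by rcases s1 with h | h <;> rw [h] at h1 <;> omega
    have h5 : (j : ℤ) = j' := by rcases s3 with h | h <;> rw [h] at h3 <;> omega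
    have h6 : i = i' := by exact_mod_cast h4
    have h7 : j = j' := by exact_mod_cast h5
    subst h6 h7
    rfl

/-- the new triangles -/
def X (m : ℕ) : Finset (Z3 × Z3) :=
  {((2, 2, (m : ℤ) - 1), (-1, -1, -1)),
   ((1, 2, (m : ℤ) - 2), (1, -1, -1)), ((2, 1, (m : ℤ) - 2), (-1, 1, -1)),
   ((2, 2, (m : ℤ) - 3), (-1, -1, 1)),
   ((1, 1, (m : ℤ) - 1), (1, -1, -1)), ((2, 0, (m : ℤ) - 1), (-1, 1, -1)),
   ((2, 1, (m : ℤ) - 2), (-1, -1, 1)),
   ((1, 1, (m : ℤ) - 1), (-1, 1, -1)), ((0, 2, (m : ℤ) - 1), (1, -1, -1)),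
   ((1, 2, (m : ℤ) - 2), (-1, -1, 1)),
   ((2, 1, (m : ℤ) - 2), (-1, 1, 1)), ((1, 2, (m : ℤ) - 2), (1, -1, 1)),
   ((1, 1, (m : ℤ) - 1), (1, 1, -1))}

theorem mem_X {m : ℕ} {a : Z3 × Z3} : a ∈ X m ↔
   a = ((2, 2, (m : ℤ) - 1), (-1, -1, -1)) ∨
   a = ((1, 2, (m : ℤ) - 2), (1, -1, -1)) ∨ a = ((2, 1, (m : ℤ) - 2), (-1, 1, -1)) ∨
   a = ((2, 2, (m : ℤ) - 3), (-1, -1, 1)) ∨
   a = ((1, 1, (m : ℤ) - 1), (1, -1, -1)) ∨ a = ((2, 0, (m : ℤ) - 1), (-1, 1, -1)) ∨
   a = ((2, 1, (m : ℤ) - 2), (-1, -1, 1)) ∨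
   a = ((1, 1, (m : ℤ) - 1), (-1, 1, -1)) ∨ a = ((0, 2, (m : ℤ) - 1), (1, -1, -1)) ∨
   a = ((1, 2, (m : ℤ) - 2), (-1, -1, 1)) ∨
   a = ((2, 1, (m : ℤ) - 2), (-1, 1, 1)) ∨ a = ((1, 2, (m : ℤ) - 2), (1, -1, 1)) ∨
   a = ((1, 1, (m : ℤ) - 1), (1, 1, -1)) := by
  simp [X]

theorem card_X (m : ℕ) : (X m).card = 13 := by
  have h : X m = ({((2, 2, -1), (-1, -1, -1)),
   ((1, 2, -2), (1, -1, -1)), ((2, 1, -2), (-1, 1, -1)),
   ((2, 2, -3), (-1, -1, 1)),
   ((1, 1, -1), (1, -1, -1)), ((2, 0, -1), (-1, 1, -1)),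
   ((2, 1, -2), (-1, -1, 1)),
   ((1, 1, -1), (-1, 1, -1)), ((0, 2, -1), (1, -1, -1)),
   ((1, 2, -2), (-1, -1, 1)),
   ((2, 1, -2), (-1, 1, 1)), ((1, 2, -2), (1, -1, 1)),
   ((1, 1, -1), (1, 1, -1))} : Finset (Z3 × Z3)).image
      (fun a => ((a.1.1, a.1.2.1, (m : ℤ) + a.1.2.2), a.2)) := by
    simp [X, sub_eq_add_neg]
  rw [h, Finset.card_image_of_injective]
  · decide
  · rintro ⟨⟨a, b, c⟩, s⟩ ⟨⟨a', b', c'⟩, s'⟩ hab
    simp only [Prod.mk.injEq, add_right_inj] at hab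
    obtain ⟨⟨rfl, rfl, rfl⟩, rfl⟩ := hab
    rfl

theorem mem_A {m : ℕ} (hm : 3 ≤ m) {a : Z3 × Z3} (ha : a ∈ A m) :
    a.2 ∈ signs ∧ a.1.1.natAbs + a.1.2.1.natAbs + a.1.2.2.natAbs + 1 ≤ m ∧
      (a.1.1 + a.1.2.1 + a.1.2.2 - m) % 2 = 1 ∧ tri a ⊆ S' m := by
  obtain ⟨⟨q1, q2, q3⟩, ⟨s1, s2, s3⟩⟩ := a
  unfold A bad at ha
  simp only [Finset.mem_sdiff, Finset.mem_product, mem_S, Finset.mem_union, Finset.mem_singleton,
    Finset.mem_insert, Prod.mk.injEq, mem_signs] at ha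
  obtain ⟨⟨h1, h2⟩, h3⟩ := ha
  refine ⟨by rw [mem_signs]; exact h2, by simp only; omega, by simp only; omega, ?_⟩
  have g1 : ¬ ((q1 = (m : ℤ) - 1 ∧ q2 = 0 ∧ q3 = 0) ∧ s1 = 1) := fun hc =>
    h3 (Or.inl ⟨hc.1, hc.2, h2.2.1, h2.2.2⟩)
  have g2 : ¬ ((q1 = -((m : ℤ) - 1) ∧ q2 = 0 ∧ q3 = 0) ∧ s1 = -1) := fun hc =>
    h3 (Or.inr (Or.inl ⟨hc.1, hc.2, h2.2.1, h2.2.2⟩))
  have g3 : ¬ ((q1 = 0 ∧ q2 = (m : ℤ) - 1 ∧ q3 = 0) ∧ s2 = 1) := fun hc =>
    h3 (Or.inr (Or.inr ⟨hc.1, h2.1, hc.2, h2.2.2⟩))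
  clear h3
  obtain ⟨hn, hpar⟩ := h1
  obtain ⟨t1, t2, t3⟩ := h2
  intro p hp
  rw [mem_tri] at hp
  rw [mem_S']
  left
  simp only at hp
  rcases hp with rfl | rfl | rfl
  · simp only [Prod.mk.injEq]
    refine ⟨⟨by omega, by omega⟩, ?_⟩
    rintro (h | h | h)
    · exact g1 ⟨⟨by omega, h.2.1, h.2.2⟩, by omega⟩
    · exact g2 ⟨⟨by omega, h.2.1, h.2.2⟩, by omega⟩
    · omega
  · simp only [Prod.mk.injEq]
    refine ⟨⟨by omega, by omega⟩, ?_⟩
    rintro (h | h | h)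
    · omega
    · omega
    · exact g3 ⟨⟨by omega, by omega, h.2.2⟩, by omega⟩
  · simp only [Prod.mk.injEq]
    refine ⟨⟨by omega, by omega⟩, ?_⟩
    rintro (h | h | h) <;> omega

theorem mem_B {m : ℕ} (hm : 3 ≤ m) {a : Z3 × Z3} (ha : a ∈ B m) :
    a.2 ∈ signs ∧ a.1.1.natAbs + a.1.2.1.natAbs + a.1.2.2.natAbs = m + 1 ∧
      tri a ⊆ S m ∧ tri a ⊆ S' m := by
  unfold B J at ha
  rw [Finset.mem_image] at ha
  obtain ⟨⟨⟨j, i⟩, ⟨s1, s2, s3⟩⟩, h1, rfl⟩ := ha
  simp only [Finset.mem_product, Finset.mem_sigma, Finset.mem_range, mem_signs] at h1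
  obtain ⟨⟨hj, hi⟩, hs1, hs2, hs3⟩ := h1
  refine ⟨by rw [mem_signs]; exact ⟨hs1, hs2, hs3⟩, ?_, ?_, ?_⟩
  · simp only [f]
    rcases hs1 with rfl | rfl <;> rcases hs2 with rfl | rfl <;> rcases hs3 with rfl | rfl <;> omega
  · intro p hp
    rw [mem_tri] at hp
    rw [mem_S]
    simp only [f] at hp
    rcases hs1 with rfl | rfl <;> rcases hs2 with rfl | rfl <;> rcases hs3 with rfl | rfl <;>
      rcases hp with rfl | rfl | rfl <;> simp only <;> omega
  · intro p hp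
    rw [mem_tri] at hp
    rw [mem_S']
    left
    simp only [f] at hp
    rcases hs1 with rfl | rfl <;> rcases hs2 with rfl | rfl <;> rcases hs3 with rfl | rfl <;>
      rcases hp with rfl | rfl | rfl <;> simp only [Prod.mk.injEq] <;> omega

theorem mem_X' {m : ℕ} (hm : 3 ≤ m) {a : Z3 × Z3} (ha : a ∈ X m) :
    a.2 ∈ signs ∧ m + 1 ≤ a.1.1.natAbs + a.1.2.1.natAbs + a.1.2.2.natAbs ∧
      ¬ tri a ⊆ S m ∧ tri a ⊆ S' m := by
  rw [mem_X] at ha
  have key : ∀ a : Z3 × Z3, (∃ p ∈ tri a, p ∈ patch m) → ¬ tri a ⊆ S m := by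
    rintro a ⟨p, hp, hp'⟩ h
    have h1 := h hp
    rw [mem_S] at h1
    unfold patch at hp'
    simp only [Finset.mem_insert, Finset.mem_singleton] at hp'
    rcases hp' with rfl | rfl | rfl <;> simp only at h1 <;> omega
  have sub : ∀ a : Z3 × Z3, (∀ p ∈ tri a,
    ((p.1.natAbs + p.2.1.natAbs + p.2.2.natAbs ≤ m ∧ (p.1 + p.2.1 + p.2.2 - m) % 2 = 0) ∧
      ¬ (p = ((m : ℤ), 0, 0) ∨ p = (-(m : ℤ), 0, 0) ∨ p = (0, (m : ℤ), 0))) ∨
    (p = (2, 2, (m : ℤ) - 2) ∨ p = (2, 1, (m : ℤ) - 1) ∨ p = (1, 2, (m : ℤ) - 1))) →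
      tri a ⊆ S' m := by
    intro a h p hp
    rw [mem_S']
    exact h p hp
  rcases ha with rfl | rfl | rfl | rfl | rfl | rfl | rfl | rfl | rfl | rfl | rfl | rfl | rfl
  all_goals refine ⟨by simp [mem_signs], by simp only; omega, key _ ?_, sub _ ?_⟩
  all_goals first
    | (intro p hp
       rw [mem_tri] at hp
       simp only at hp
       rcases hp with rfl | rfl | rfl <;>
         simp only [Prod.mk.injEq, and_true, true_and] <;> omega)
    | (refine ⟨(2, 2, (m : ℤ) - 2), ?_, ?_⟩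
       · rw [mem_tri]
         simp only [Prod.mk.injEq, and_true, true_and]
         omega
       · simp [patch])
    | (refine ⟨(2, 1, (m : ℤ) - 1), ?_, ?_⟩
       · rw [mem_tri]
         simp only [Prod.mk.injEq, and_true, true_and]
         omega
       · simp [patch])
    | (refine ⟨(1, 2, (m : ℤ) - 1), ?_, ?_⟩
       · rw [mem_tri]
         simp only [Prod.mk.injEq, and_true, true_and]
         omega
       · simp [patch])

theorem A_sub_S {m : ℕ} (hm : 3 ≤ m) {a : Z3 × Z3} (ha : a ∈ A m) : tri a ⊆ S m := by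
  obtain ⟨h1, h2, h3, h4⟩ := mem_A hm ha
  obtain ⟨⟨q1, q2, q3⟩, ⟨s1, s2, s3⟩⟩ := a
  rw [mem_signs] at h1
  simp only at h1 h2 h3
  intro p hp
  rw [mem_tri] at hp
  rw [mem_S]
  simp only at hp
  rcases hp with rfl | rfl | rfl <;> simp only <;> omega

theorem many (m : ℕ) (hm : 3 ≤ m) :
    4 * m * (m + 1) * (4 * m - 1) + 3 ≤ 3 * numTouching 3 ((S' m).image Phi) := by
  have hAB : Disjoint (A m) (B m) := by
    rw [Finset.disjoint_left]
    intro a ha hb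
    have h1 := (mem_A hm ha).2.1
    have h2 := (mem_B hm hb).2.1
    omega
  have hABX : Disjoint (A m ∪ B m) (X m) := by
    rw [Finset.disjoint_left]
    intro a ha hx
    have h1 := (mem_X' hm hx).2.2.1
    rw [Finset.mem_union] at ha
    rcases ha with ha | ha
    · exact h1 (A_sub_S hm ha)
    · exact h1 (mem_B hm ha).2.2.1
  have hsig : ∀ a ∈ A m ∪ B m ∪ X m, a.2 ∈ signs ∧ tri a ⊆ S' m := by
    intro a ha
    rw [Finset.mem_union, Finset.mem_union] at ha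
    rcases ha with (ha | ha) | ha
    · exact ⟨(mem_A hm ha).1, (mem_A hm ha).2.2.2⟩
    · exact ⟨(mem_B hm ha).1, (mem_B hm ha).2.2.2⟩
    · exact ⟨(mem_X' hm ha).1, (mem_X' hm ha).2.2.2⟩
  have h := le_numTouching (A m ∪ B m ∪ X m) tri 3 (S' m)
    (fun a ha b hb hab => tri_injOn (hsig a ha).1 (hsig b hb).1 hab)
    (fun a ha => (hsig a ha).2) (fun a ha => tri_card (hsig a ha).1)
    (fun a ha => tri_touch (hsig a ha).1)
  rw [Finset.card_union_of_disjoint hABX, Finset.card_union_of_disjoint hAB, card_X] at h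
  have h1 := card_A m
  have h2 := card_B m
  have h3 := card_S (m - 1)
  obtain ⟨n, rfl⟩ : ∃ n, m = n + 1 := ⟨m - 1, by omega⟩
  simp only [Nat.add_sub_cancel] at h1 h2 h3
  have e : 4 * (n + 1) - 1 = 4 * n + 3 := by omega
  rw [e]
  nlinarith

theorem exists_packing (k : ℕ) (hk : 4 ≤ k) : ∃ P : Finset E3, IsPacking P ∧
    P.card = (2 * k ^ 3 + k) / 3 ∧
      (4 / 3 : ℝ) * (k - 1) * k * (4 * k - 5) < numTouching 3 P := by
  obtain ⟨m, rfl⟩ : ∃ m, k = m + 1 := ⟨k - 1, by omega⟩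
  have hm : 3 ≤ m := by omega
  refine ⟨(S' m).image Phi, ?_, ?_, ?_⟩
  · apply packing_of_parity _ m
    intro p hp
    rw [mem_S'] at hp
    rcases hp with hp | rfl | rfl | rfl
    · exact hp.1.2
    · simp only; omega
    · simp only; omega
    · simp only; omega
  · rw [Finset.card_image_of_injective _ Phi_injective, card_S' hm]
    have h := card_S m
    have h2 : 2 * (m + 1) ^ 3 + (m + 1) = 3 * (S m).card := by rw [h]; ring
    rw [h2]
    omega
  · have h := many m hm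
    have h1 : (4 * (m : ℝ) * (m + 1) * (4 * m - 1) + 3) ≤ 3 * (numTouching 3 ((S' m).image Phi) : ℝ) := by
      have h2 : ((4 * m * (m + 1) * (4 * m - 1) + 3 : ℕ) : ℝ) ≤
        ((3 * numTouching 3 ((S' m).image Phi) : ℕ) : ℝ) := by exact_mod_cast h
      rw [Nat.cast_add, Nat.cast_mul, Nat.cast_sub (by omega)] at h2
      push_cast at h2
      linarith
    push_cast
    nlinarith

/-- For every `k ≥ 4` some packing of `n_k = (2k³ + k)/3` unit balls has more than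
`t_k = (4/3)(k - 1)k(4k - 5)` touching triplets; in particular there is no `k₃` as in Q1. -/
theorem result :
    (∀ k : ℕ, 4 ≤ k → ∃ P : Finset E3, IsPacking P ∧ P.card = (2 * k ^ 3 + k) / 3 ∧
      (4 / 3 : ℝ) * (k - 1) * k * (4 * k - 5) < numTouching 3 P) ∧
    ¬ ∃ k₃ : ℕ, 0 < k₃ ∧ ∀ k : ℕ, k₃ ≤ k → ∀ P : Finset E3, IsPacking P →
      P.card = (2 * k ^ 3 + k) / 3 →
        (numTouching 3 P : ℝ) ≤ (4 / 3 : ℝ) * (k - 1) * k * (4 * k - 5) := by
  refine ⟨exists_packing, ?_⟩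
  rintro ⟨k₃, _, h⟩
  obtain ⟨P, h1, h2, h3⟩ := exists_packing (k₃ + 4) (by omega)
  have := h (k₃ + 4) (by omega) P h1 h2
  linarith

end Pool.Agent.Results.MP_b59a08_co.Triplets
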